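import Pool.Agent.H29.DPX.LP

/-!
# DPX: the step, from a twist to the variety
-/

set_option autoImplicit false

namespace Pool.DPX

open Polynomial Complex Pool.DPC

/-- reindexing a product over the nontrivial powers -/
theorem prod_pow_reindex {G : Type*} [Group G] {q s : ℕ} (hq : q.Prime) (hs : s.Coprime q)
    (c : G) (hc : c ^ q = 1) (F : G → ℂ) :
    ∏ i ∈ Finset.Ico 1 q, F (c ^ i) = ∏ i ∈ Finset.Ico 1 q, F ((c ^ i) ^ s) := by
  obtain ⟨t, -, ht⟩ := Nat.exists_mul_mod_eq_one_of_coprime hs hq.one_lt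
  have ht' : t.Coprime q := by
    have h1 : (s * t) ≡ 1 [MOD q] := by
      rw [Nat.ModEq, ht, Nat.mod_eq_of_lt hq.one_lt]
    have h2 : (s * t).Coprime q := by
      rw [Nat.Coprime, h1.gcd_eq, Nat.gcd_one_left]
    exact Nat.Coprime.coprime_mul_left h2
  have hmem : ∀ u : ℕ, u.Coprime q → ∀ i ∈ Finset.Ico 1 q, i * u % q ∈ Finset.Ico 1 q := by
    intro u hu i hi
    rw [Finset.mem_Ico] at hi ⊢
    refine ⟨?_, Nat.mod_lt _ hq.pos⟩
    rw [Nat.one_le_iff_ne_zero]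
    intro h0
    have h1 : q ∣ i * u := Nat.dvd_of_mod_eq_zero h0
    have h2 : q ∣ i := (Nat.Coprime.dvd_mul_right hu.symm).1 h1
    have h3 := Nat.le_of_dvd (by omega) h2
    omega
  have hinv : ∀ u v : ℕ, u * v ≡ 1 [MOD q] → ∀ i ∈ Finset.Ico 1 q,
      i * u % q * v % q = i := by
    intro u v huv i hi
    rw [Finset.mem_Ico] at hi
    have h1 : i * u % q * v ≡ i [MOD q] := by
      calc i * u % q * v ≡ i * u * v [MOD q] := (Nat.mod_modEq _ _).mul_right v
        _ = i * (u * v) := by ring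
        _ ≡ i * 1 [MOD q] := huv.mul_left i
        _ = i := by ring
    rw [Nat.ModEq, Nat.mod_eq_of_lt hi.2] at h1
    exact h1
  have hst : s * t ≡ 1 [MOD q] := by
    rw [Nat.ModEq, ht, Nat.mod_eq_of_lt hq.one_lt]
  have hts : t * s ≡ 1 [MOD q] := by
    rw [mul_comm]
    exact hst
  refine Finset.prod_nbij' (fun i => i * t % q) (fun i => i * s % q) (hmem t ht') (hmem s hs)
    (hinv t s hts) (hinv s t hst) ?_
  intro i hi
  have h1 : (c ^ (i * t % q)) ^ s = c ^ i := by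
    rw [← pow_mod_orderOf c (i * t % q), ← pow_mod_orderOf c i]
    have h2 : orderOf c ∣ q := orderOf_dvd_of_pow_eq_one hc
    rw [Nat.mod_mod_of_dvd _ h2, pow_mod_orderOf, pow_mod_orderOf, ← pow_mul]
    refine pow_eq_pow_of_modEq ?_ hc
    calc i * t * s = i * (t * s) := by ring
      _ ≡ i * 1 [MOD q] := hts.mul_left i
      _ = i := by ring
  rw [h1]

/-- `psi` is good for `A`: the values of the powers of `psi` are moved by Galois automorphisms -/
def EQv (k : IntermediateField ℚ ℂ) (N : ℕ) (A : Datum) {f : ℕ} (psi : DirichletCharacter ℂ f) :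
    Prop :=
  EQ k N (fun s => normValue A.d A.Om (A.L f) (psi ^ s))

theorem even_pow {f : ℕ} {psi : DirichletCharacter ℂ f} (h : psi.Even) (s : ℕ) :
    (psi ^ s).Even := by
  unfold DirichletCharacter.Even at h ⊢
  have hu : ((-1 : (ZMod f)ˣ) : ZMod f) = -1 := by simp
  rw [← hu, MulChar.pow_apply_coe, hu, h, one_pow]

theorem even_mul {f : ℕ} {psi chi : DirichletCharacter ℂ f} (h : psi.Even) (h' : chi.Even) :
    (psi * chi).Even := by
  unfold DirichletCharacter.Even at h h' ⊢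
  rw [MulChar.mul_apply, h, h', one_mul]

theorem jac_ne {f : ℕ} (hg : ∀ a : DirichletCharacter ℂ f, gaussTau a ≠ 0)
    (a b : DirichletCharacter ℂ f) : jac a b ≠ 0 :=
  div_ne_zero (mul_ne_zero (hg a) (hg b)) (hg _)

/-- the product over the twists -/
theorem eq_prod {k : IntermediateField ℚ ℂ} {N n f q : ℕ} {U : Set ℂ} (hU : Region U)
    {A B : Datum} (hq : q.Prime) (hqn : q ∣ n) (hnN : n ∣ N) (hfN : f ∣ N)
    (hA : HL n A.P U A.L) (hB : HL n B.P U B.L) (hf : Squarefree f)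
    (hg : ∀ a : DirichletCharacter ℂ f, gaussTau a ≠ 0) (hOA : A.Om ≠ 0)
    (chi : DirichletCharacter ℂ f) (hchi : chi.Even) (hchi2 : chi ^ q = 1)
    (hT : IsTwist q chi A B) (psi : DirichletCharacter ℂ f) (hpsi : psi.Even)
    (hpsi' : psi ^ n = 1) (hE : EQv k N B psi) :
    EQ k N (fun s => ∏ i ∈ Finset.Ico 1 q, normValue A.d A.Om (A.L f) ((psi * chi ^ i) ^ s)) := by
  have hchi' : chi ^ n = 1 := by
    obtain ⟨m, rfl⟩ := hqn
    rw [pow_mul, hchi2, one_pow]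
  have hN : ∀ c : DirichletCharacter ℂ f, c ^ n = 1 → c ^ N = 1 := fun c hc => by
    obtain ⟨m, rfl⟩ := hnN
    rw [pow_mul, hc, one_pow]
  obtain ⟨r, hr, hval⟩ := value_twist hU hA hB hf hg hOA chi hchi hchi' hchi2 hT
  have hJ : EQ k N (fun s => (∏ i ∈ Finset.Ico 1 q,
      jac (psi⁻¹ ^ s) ((chi⁻¹ ^ i) ^ s)) ^ A.d) := by
    refine EQ.pow (EQ.prod _ fun i _ => jac_eq k hf.ne_zero hfN _ _ ?_ ?_) _
    · rw [inv_pow, hN psi hpsi', inv_one]
    · rw [← pow_mul, mul_comm, pow_mul, inv_pow, hN chi hchi', inv_one, one_pow]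
  have hJ1 : (∏ i ∈ Finset.Ico 1 q, jac (psi⁻¹ ^ 1) ((chi⁻¹ ^ i) ^ 1)) ^ A.d ≠ 0 :=
    pow_ne_zero _ (Finset.prod_ne_zero_iff.2 fun i _ => jac_ne hg _ _)
  refine EQ.cancel (w := fun s => (∏ i ∈ Finset.Ico 1 q,
      jac (psi⁻¹ ^ s) ((chi⁻¹ ^ i) ^ s)) ^ A.d) ?_ hJ hJ1
  refine (hE.mul (EQ.const r)).congr' fun s hs => ?_
  have hsq : s.Coprime q := Nat.Coprime.coprime_dvd_right (hqn.trans hnN) hs
  have hpn : (psi ^ s) ^ n = 1 := by
    rw [← pow_mul, mul_comm, pow_mul, hpsi', one_pow]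
  have h1 := hval (psi ^ s) (even_pow hpsi s) hpn
  have h2 := prod_pow_reindex hq hsq chi hchi2
    (fun c => normValue A.d A.Om (A.L f) (psi ^ s * c))
  have hchi3 : chi⁻¹ ^ q = 1 := by rw [inv_pow, hchi2, inv_one]
  have h3 := prod_pow_reindex hq hsq chi⁻¹ hchi3 (fun c => jac (psi ^ s)⁻¹ c)
  change normValue B.d B.Om (B.L f) (psi ^ s) * r = _
  rw [h1, h2, h3, mul_comm]
  simp only [mul_pow, inv_pow]

/-- the step -/
theorem step {k : IntermediateField ℚ ℂ} {N n f q : ℕ} {U : Set ℂ} (hU : Region U)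
    {A B : Datum} (hq : q.Prime) (hqn : q ∣ n) (hnN : n ∣ N) (hfN : f ∣ N)
    (hA : HL n A.P U A.L) (hB : HL n B.P U B.L) (hf : Squarefree f)
    (hg : ∀ a : DirichletCharacter ℂ f, gaussTau a ≠ 0) (hOA : A.Om ≠ 0)
    (chi : DirichletCharacter ℂ f) (hchi : chi.Even) (hchi2 : chi ^ q = 1)
    (hT : IsTwist q chi A B) (psi : DirichletCharacter ℂ f) (hpsi : psi.Even)
    (hpsi' : psi ^ n = 1) (hE : EQv k N B (psi * chi))
    (hX : ∀ t ∈ Finset.Ico 2 q, EQv k N A (psi * chi ^ t) ∧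
      normValue A.d A.Om (A.L f) (psi * chi ^ t) ≠ 0) :
    EQv k N A psi := by
  have hchi' : chi ^ n = 1 := by
    obtain ⟨m, rfl⟩ := hqn
    rw [pow_mul, hchi2, one_pow]
  have h1 := eq_prod hU hq hqn hnN hfN hA hB hf hg hOA chi hchi hchi2 hT (psi * chi)
    (even_mul hpsi hchi) (by rw [mul_pow, hpsi', hchi', one_mul]) hE
  refine EQ.cancel (w := fun s => ∏ t ∈ Finset.Ico 2 q,
    normValue A.d A.Om (A.L f) ((psi * chi ^ t) ^ s)) (h1.congr' fun s _ => ?_)
    (EQ.prod _ fun t ht => (hX t ht).1) ?_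
  · have h2 := hq.two_le
    obtain ⟨m, hm⟩ : ∃ m, q = m + 1 := ⟨q - 1, by omega⟩
    have h3 : ∏ i ∈ Finset.Ico 1 q,
        normValue A.d A.Om (A.L f) ((psi * chi * chi ^ i) ^ s) =
        (∏ i ∈ Finset.Ico 1 m,
          normValue A.d A.Om (A.L f) ((psi * chi * chi ^ i) ^ s)) *
          normValue A.d A.Om (A.L f) ((psi * chi * chi ^ m) ^ s) := by
      rw [hm]
      exact Finset.prod_Ico_succ_top (by omega) _
    have h4 : psi * chi * chi ^ m = psi := by
      rw [mul_assoc, ← pow_succ', ← hm, hchi2, mul_one]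
    have h5 : ∏ t ∈ Finset.Ico 2 q, normValue A.d A.Om (A.L f) ((psi * chi ^ t) ^ s) =
        ∏ i ∈ Finset.Ico 1 m, normValue A.d A.Om (A.L f) ((psi * chi * chi ^ i) ^ s) := by
      rw [hm]
      have h6 := Finset.prod_Ico_add' (fun t => normValue A.d A.Om (A.L f)
        ((psi * chi ^ t) ^ s)) 1 m 1
      rw [← h6]
      refine Finset.prod_congr rfl fun i _ => ?_
      rw [mul_assoc psi chi, ← pow_succ']
    change ∏ i ∈ Finset.Ico 1 q, normValue A.d A.Om (A.L f) ((psi * chi * chi ^ i) ^ s) =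
      normValue A.d A.Om (A.L f) (psi ^ s) * ∏ t ∈ Finset.Ico 2 q,
        normValue A.d A.Om (A.L f) ((psi * chi ^ t) ^ s)
    rw [h3, h4, h5, mul_comm]
  · refine Finset.prod_ne_zero_iff.2 fun t ht => ?_
    rw [pow_one]
    exact (hX t ht).2

end Pool.DPX
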