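import Pool.Agent.H29.DPX.Comb
import Pool.Agent.H29.DPX.Step
import Pool.Agent.H29.DPC.SUP
import Pool.Agent.H3.DPC.VCR
import Pool.Agent.H34.DPC.EVP
import Pool.Agent.H34.DPC.GRF
import Pool.Agent.H52.DPC.LFP
import Pool.Agent.H85.DPC.FLD

/-!
# DPX: the characters with few ramified primes
-/

set_option autoImplicit false

namespace Pool.DPX

open Polynomial Complex Pool.DPC

theorem vcr : VCRStmt := t_vcr (t_val t_td1 t_td3 t_GSM t_lfp)

/-- from (i) and (ii) to the action of the automorphisms of `k(mu_N)` -/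
theorem eqv_of_equivariant {k : IntermediateField ℚ ℂ} {N f : ℕ} (hN : 0 < N) (A : Datum)
    (psi : DirichletCharacter ℂ f) (hpsi : psi ^ N = 1)
    (h : Equivariant k (normValue A.d A.Om (A.L f)) psi) : EQv k N A psi := by
  obtain ⟨hgal, hfin, hpow, hval, hext⟩ := t_gal k N hN
  have hK : valueField k psi ≤ cyc k N := hval f psi hpsi
  obtain ⟨h1, h2⟩ := h
  refine ⟨⟨_, hK h1⟩, ?_, fun g s hg => ?_⟩
  · beta_reduce
    rw [pow_one]
  · have h3 := h2 (((cyc k N).val.comp (g : cyc k N →ₐ[k] cyc k N)).comp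
      (IntermediateField.inclusion hK)) (psi ^ s) ?_
    · exact h3
    · intro a
      by_cases ha : IsUnit a
      · obtain ⟨u, rfl⟩ := ha
        exact (FLDaux.pow_val hN hpsi hg hK u).symm
      · have h4 : psi a = 0 := MulChar.map_nonunit psi ha
        have h5 : (psi ^ s) a = 0 := MulChar.map_nonunit (psi ^ s) ha
        rw [h5]
        have h6 : (⟨psi a, IntermediateField.subset_adjoin _ _ (Set.mem_range_self a)⟩ :
            valueField k psi) = 0 := Subtype.ext h4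
        rw [h6, map_zero]

/-- and back -/
theorem equivariant_of_eqv {k : IntermediateField ℚ ℂ} {N f : ℕ} (hN : 0 < N) (A : Datum)
    (psi : DirichletCharacter ℂ f) (hpsi : psi ^ N = 1) (h : EQv k N A psi) :
    Equivariant k (normValue A.d A.Om (A.L f)) psi := by
  refine t_FLD t_gal k N f _ psi hN hpsi fun g s hg π => ?_
  obtain ⟨x, hx, hx'⟩ := h
  have h1 : normValue A.d A.Om (A.L f) psi = x • (1 : ℂ) := by
    beta_reduce at hx
    rw [pow_one] at hx
    rw [← hx, Algebra.smul_def, mul_one]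
    rfl
  rw [h1, map_smul, smul_eq_mul, map_mul]
  push_cast
  rw [hx' g s hg, mul_comm]

/-- raising the level -/
theorem raise {k : IntermediateField ℚ ℂ} {N n : ℕ} {U : Set ℂ} (hU : Region U)
    (hN : 0 < N) (hnN : n ∣ N) {A : Datum} (hW : Weil A.d A.P) (hA : HL n A.P U A.L)
    (C : Finset Nat.Primes) (φ : Ch) (hφ : Tame n φ) (hC : sup φ ⊆ C)
    (h : EQv k N A (toDC (supF φ) φ)) : EQv k N A (toDC C φ) := by
  have hφN : Tame N φ := by
    refine ⟨hφ.fin, ?_, hφ.even⟩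
    obtain ⟨m, rfl⟩ := hnN
    rw [pow_mul, hφ.exp, one_pow]
  have hS := t_SUP
  have hsup : ∀ s : ℕ, s.Coprime N → sup (φ ^ s) = sup φ := fun s hs =>
    hS.2.2.2.1 φ s (Nat.Coprime.coprime_dvd_right (hS.2.2.2.2.2.2.2.1 N φ hN hφN).2 hs)
  have hF : EQ k N (fun s => ∏ᶠ l ∈ (C : Set Nat.Primes) \ sup (φ ^ s),
      Rf A.d A.P l (ev (φ ^ s) (l : ℕ))) := by
    have hg := t_grf t_evp t_SUP k N A.d A.P C hN C.finite_toSet
    obtain ⟨r, hr, -⟩ := hg AlgEquiv.refl 1 ⟨Nat.coprime_one_left N, fun z _ => by simp⟩ φ hφN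
    refine ⟨r, ?_, fun g s hgs => ?_⟩
    · beta_reduce
      rw [hr, pow_one]
    · obtain ⟨r', hr', hr2⟩ := hg g s hgs φ hφN
      have h1 : r = r' := Subtype.ext (hr.trans hr'.symm)
      rw [h1, hr2]
  refine (h.mul hF).congr' fun s hs => ?_
  have h1 := vcr n A.d A.Om A.P U A.L hW hU hA C (φ ^ s) (hS.2.2.2.2.2.2.1 n s φ hφ)
    ((hsup s hs).subset.trans hC)
  unfold Vc at h1
  rw [toDC_pow] at h1
  rw [h1]
  unfold wl V0 Vc
  have h2 : supF (φ ^ s) = supF φ := by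
    unfold supF
    have h3 : (sup (φ ^ s)).Finite := by
      rw [hsup s hs]
      exact hφ.fin
    rw [dif_pos h3, dif_pos hφ.fin]
    rw [← Finset.coe_inj, Set.Finite.coe_toFinset, Set.Finite.coe_toFinset, hsup s hs]
  rw [h2, toDC_pow]

/-- the characters with few ramified primes -/
theorem base {k : IntermediateField ℚ ℂ} {N n f : ℕ} {U : Set ℂ} (hU : Region U) (hn : 0 < n)
    (hN : 0 < N) (hnN : n ∣ N) {A : Datum} (hW : Weil A.d A.P) (hA : HL n A.P U A.L)
    (H : ∀ (f : ℕ) (psi : DirichletCharacter ℂ f), FieldData n f (Subgroup.zpowers psi) →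
      (∀ q : ℕ, q.Prime → q ∣ n → (psi ^ (n / q)).conductor.primeFactors.card ≤ q - 2) →
      Equivariant k (normValue A.d A.Om (A.L f)) psi)
    (hf : Squarefree f) (psi : DirichletCharacter ℂ f) (hpsi : psi.Even) (hpsi' : psi ^ n = 1)
    (hq : ∀ q : ℕ, q.Prime → q ∣ n → (psi ^ (n / q)).conductor.primeFactors.card ≤ q - 2) :
    EQv k N A psi := by
  classical
  obtain ⟨C, rfl, φ, hC, hφ, rfl⟩ := exists_family hf psi hpsi'
  simp only at hpsi hpsi' hq ⊢
  have hT : Tame n φ := ⟨C.finite_toSet.subset hC, hφ, (t_td1.2.2.2 C φ hC).1 hpsi⟩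
  have hs : ((supF φ : Finset Nat.Primes) : Set Nat.Primes) = sup φ := VCR3.coe_supF hT.fin
  refine raise hU hN hnN hW hA C φ hT hC (eqv_of_equivariant hN A _ ?_ (H _ _ ?_ ?_))
  · obtain ⟨m, rfl⟩ := hnN
    rw [← toDC_pow, pow_mul, hφ, one_pow, TD.toDC_one]
  · have e1 : (toDC (supF φ) φ).Even := (t_td1.2.2.2 (supF φ) φ hs.symm.subset).2 hT.even
    have e2 : toDC (supF φ) φ ^ n = 1 := by rw [← toDC_pow, hφ, TD.toDC_one]
    have e3 : ∀ c ∈ Subgroup.zpowers (toDC (supF φ) φ), ∃ m : ℕ, toDC (supF φ) φ ^ m = c :=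
      fun c hc => (IsOfFinOrder.mem_powers_iff_mem_zpowers
        (isOfFinOrder_iff_pow_eq_one.2 ⟨n, hn, e2⟩)).2 hc
    refine ⟨TD.squarefree_cn _, fun c hc => ?_, fun c hc => ?_, fun l hl hlf => ?_⟩
    · obtain ⟨m, rfl⟩ := e3 c hc
      exact even_pow e1 m
    · obtain ⟨m, rfl⟩ := e3 c hc
      rw [← pow_mul, mul_comm, pow_mul, e2, one_pow]
    · have h1 : (⟨l, hl⟩ : Nat.Primes) ∈ supF φ := (TD.dvd_cn_iff _ ⟨l, hl⟩).1 hlf
      refine ⟨_, Subgroup.mem_zpowers _, ?_⟩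
      refine (TD.conductor_iff (supF φ) φ ⟨l, hl⟩ hs.symm.subset h1).2 ?_
      have h2 : (⟨l, hl⟩ : Nat.Primes) ∈ sup φ := by
        rw [← hs]
        exact h1
      exact h2
  · intro q hq1 hq2
    have h1 := hq q hq1 hq2
    rw [← toDC_pow, conductor_toDC, card_cn] at h1 ⊢
    · refine le_trans (Finset.card_le_card fun l hl => ?_) h1
      rw [Finset.mem_filter] at hl ⊢
      refine ⟨?_, hl.2⟩
      exact ((SUPaux φ _).trans hC) hl.2
    · rw [hs]
      exact SUPaux φ _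
    · exact (SUPaux φ _).trans hC

end Pool.DPX
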