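import Pool.Agent.H29.DPC.S2
import Pool.Agent.H50.DPC.TD3
import Pool.Agent.H3.DPC.VAL

/-!
# DPX: the choice of the twist
-/

set_option autoImplicit false

namespace Pool.DPX

open Complex Pool.DPC

theorem SUPaux (φ : Ch) (m : ℕ) : sup (φ ^ m) ⊆ sup φ := by
  intro l hl h0
  apply hl
  change φ l ^ m = 1
  rw [h0, one_pow]

theorem toDC_pow (C : Finset Nat.Primes) (φ : Ch) (m : ℕ) : toDC C (φ ^ m) = toDC C φ ^ m :=
  map_pow (VAL3.hom t_td1 C) φ m

open Classical in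
/-- the conductor of a family -/
theorem conductor_toDC (C : Finset Nat.Primes) (φ : Ch) (h : sup φ ⊆ C) :
    (toDC C φ).conductor = cn (C.filter fun l => φ l ≠ 1) := by
  have hd : (toDC C φ).conductor ∣ cn C := DirichletCharacter.conductor_dvd_level _
  rw [Nat.Squarefree.ext_iff ((TD.squarefree_cn C).squarefree_of_dvd hd) (TD.squarefree_cn _)]
  intro p hp
  constructor
  · intro h1
    have h2 : (⟨p, hp⟩ : Nat.Primes) ∈ C := (TD.dvd_cn_iff C ⟨p, hp⟩).1 (h1.trans hd)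
    have h3 := (TD.conductor_iff C φ ⟨p, hp⟩ h h2).1 h1
    exact (TD.dvd_cn_iff _ ⟨p, hp⟩).2 (Finset.mem_filter.2 ⟨h2, h3⟩)
  · intro h1
    have h2 := (TD.dvd_cn_iff _ ⟨p, hp⟩).1 h1
    rw [Finset.mem_filter] at h2
    exact (TD.conductor_iff C φ ⟨p, hp⟩ h h2.1).2 h2.2

theorem cn_dvd_iff (S T : Finset Nat.Primes) : cn S ∣ cn T ↔ S ⊆ T := by
  constructor
  · intro h l hl
    exact (TD.dvd_cn_iff T l).1 ((TD.dvd_cn hl).trans h)
  · intro h
    exact Finset.prod_dvd_prod_of_subset S T _ h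

theorem card_cn (S : Finset Nat.Primes) : (cn S).primeFactors.card = S.card := by
  classical
  have h : (cn S).primeFactors = S.image (fun l : Nat.Primes => (l : ℕ)) := by
    ext p
    rw [Nat.mem_primeFactors, Finset.mem_image]
    constructor
    · rintro ⟨h1, h2, -⟩
      exact ⟨⟨p, h1⟩, (TD.dvd_cn_iff S ⟨p, h1⟩).1 h2, rfl⟩
    · rintro ⟨l, h1, rfl⟩
      exact ⟨l.2, TD.dvd_cn h1, TD.cn_ne_zero S⟩
  rw [h]
  exact Finset.card_image_of_injective S Subtype.coe_injective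

/-- the choice of the twist, for families -/
theorem exists_twist_family {n q : ℕ} (hn : Squarefree n) (hq : q.Prime) (hqn : q ∣ n)
    (φ : Ch) (hφ : φ ^ n = 1) (S : Finset Nat.Primes) (hS : ∀ l, l ∈ S ↔ (φ ^ (n / q)) l ≠ 1)
    (hcard : q - 1 ≤ S.card) (hq2 : q ≠ 2) :
    ∃ (χ : Ch) (t : Nat.Primes → ℕ), χ ^ q = 1 ∧ sup χ ⊆ sup φ ∧
      (∀ j ∈ Finset.Ico 1 q, ∀ l, ((φ * χ ^ j) ^ (n / q)) l ≠ 1 ↔ l ∈ S ∧ t l ≠ j) ∧
      (∀ j ∈ Finset.Ico 1 q, ∃ l ∈ S, t l = j) ∧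
      (S.filter fun l => t l ≠ 1).card ≤ q - 2 := by
  classical
  have hq3 : 3 ≤ q := by
    have := hq.two_le
    omega
  -- the function `t`
  obtain ⟨T, hTS, hT⟩ := Finset.exists_subset_card_eq (show q - 2 ≤ S.card by omega)
  have hcd : T.card = (Finset.Ico 2 q).card := by rw [hT, Nat.card_Ico]
  obtain ⟨t, ht⟩ : ∃ t : Nat.Primes → ℕ, t = fun l =>
      if h : l ∈ T then ((Finset.equivOfCardEq hcd ⟨l, h⟩ : Finset.Ico 2 q) : ℕ) else 1 :=
    ⟨_, rfl⟩
  have ht1 : ∀ l, l ∉ T → t l = 1 := fun l hl => by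
    rw [ht]
    simp only [dif_neg hl]
  have ht2 : ∀ l (h : l ∈ T), t l = ((Finset.equivOfCardEq hcd ⟨l, h⟩ : Finset.Ico 2 q) : ℕ) :=
    fun l hl => by
      rw [ht]
      simp only [dif_pos hl]
  have ht3 : ∀ l, t l ∈ Finset.Ico 1 q := fun l => by
    by_cases hl : l ∈ T
    · rw [ht2 l hl]
      have h1 := (Finset.equivOfCardEq hcd ⟨l, hl⟩).2
      rw [Finset.mem_Ico] at h1 ⊢
      omega
    · rw [ht1 l hl, Finset.mem_Ico]
      omega
  have ht4 : ∀ j ∈ Finset.Ico 1 q, ∃ l ∈ S, t l = j := by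
    intro j hj
    rw [Finset.mem_Ico] at hj
    by_cases h1 : j = 1
    · have h2 : T.card < S.card := by omega
      obtain ⟨l, hl, hlT⟩ := Finset.exists_mem_notMem_of_card_lt_card h2
      exact ⟨l, hl, by rw [ht1 l hlT, h1]⟩
    · have h2 : j ∈ Finset.Ico 2 q := by
        rw [Finset.mem_Ico]
        omega
      obtain ⟨x, hx⟩ := (Finset.equivOfCardEq hcd).surjective ⟨j, h2⟩
      refine ⟨x.1, hTS x.2, ?_⟩
      rw [ht2 x.1 x.2]
      exact congrArg Subtype.val hx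
  have ht5 : (S.filter fun l => t l ≠ 1).card ≤ q - 2 := by
    rw [← hT]
    refine Finset.card_le_card fun l hl => ?_
    rw [Finset.mem_filter] at hl
    by_contra h
    exact hl.2 (ht1 l h)
  -- the function `a`
  have ha : ∀ j, ∃ a : ℕ, j ∈ Finset.Ico 1 q → q ∣ 1 + a * j := by
    intro j
    by_cases hj : j ∈ Finset.Ico 1 q
    · have hj' := Finset.mem_Ico.1 hj
      have hc : j.Coprime q :=
        ((Nat.Prime.coprime_iff_not_dvd hq).2 fun h => by
          have := Nat.le_of_dvd (by omega) h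
          omega).symm
      obtain ⟨m, -, hm⟩ := Nat.exists_mul_mod_eq_one_of_coprime hc hq.one_lt
      refine ⟨m * (q - 1), fun _ => ?_⟩
      have h1 : j * m ≡ 1 [MOD q] := by
        rw [Nat.ModEq, hm, Nat.mod_eq_of_lt hq.one_lt]
      have h2 : 1 + m * (q - 1) * j ≡ 0 [MOD q] := by
        calc 1 + m * (q - 1) * j = 1 + j * m * (q - 1) := by ring
          _ ≡ 1 + 1 * (q - 1) [MOD q] := Nat.ModEq.add_left 1 (h1.mul_right _)
          _ = q := by omega
          _ ≡ 0 [MOD q] := by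
            rw [Nat.ModEq, Nat.mod_self, Nat.zero_mod]
      exact (Nat.modEq_zero_iff_dvd).1 h2
    · exact ⟨0, fun h => absurd h hj⟩
  choose a ha using ha
  -- the number `e`
  obtain ⟨m, hm⟩ := hqn
  have hnq : n / q = m := by
    rw [hm]
    exact Nat.mul_div_cancel_left m hq.pos
  have hcop : q.Coprime m := by
    rw [hm] at hn
    exact Nat.coprime_of_squarefree_mul hn
  obtain ⟨e, he1, he2⟩ := Nat.chineseRemainder hcop 1 0
  have he3 : m ∣ e := (Nat.modEq_zero_iff_dvd).1 he2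
  rw [hnq] at hS ⊢
  have hφl : ∀ l, (φ l) ^ n = 1 := fun l => congrFun hφ l
  have hφq : ∀ l, (φ l ^ m) ^ q = 1 := fun l => by
    rw [← pow_mul, mul_comm, ← hm, hφl]
  refine ⟨fun l => φ l ^ (e * a (t l)), t, ?_, ?_, ?_, ht4, ht5⟩
  · funext l
    change (φ l ^ (e * a (t l))) ^ q = 1
    obtain ⟨e', rfl⟩ := he3
    have h1 : m * e' * a (t l) * q = n * (e' * a (t l)) := by
      rw [hm]
      ring
    rw [← pow_mul, h1, pow_mul, hφl, one_pow]
  · intro l hl h0
    apply hl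
    change φ l ^ (e * a (t l)) = 1
    rw [h0, one_pow]
  · intro j hj l
    have h1 : ((φ * (fun l => φ l ^ (e * a (t l)) : Ch) ^ j) ^ m) l =
        (φ l ^ m) ^ (1 + a (t l) * j) := by
      change (φ l * (φ l ^ (e * a (t l))) ^ j) ^ m = _
      have h2 : (φ l ^ m) ^ e = φ l ^ m := by
        conv_rhs => rw [← pow_one (φ l ^ m)]
        refine pow_eq_pow_of_modEq he1 ?_
        exact hφq l
      calc (φ l * (φ l ^ (e * a (t l))) ^ j) ^ m
          = φ l ^ m * ((φ l ^ m) ^ e) ^ (a (t l) * j) := by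
            rw [mul_pow]
            simp only [← pow_mul]
            congr 2
            ring
        _ = (φ l ^ m) ^ (1 + a (t l) * j) := by rw [h2, pow_add, pow_one]
    have hS' : l ∈ S ↔ φ l ^ m ≠ 1 := hS l
    rw [h1, hS']
    constructor
    · intro h2
      have h3 : φ l ^ m ≠ 1 := by
        intro h4
        rw [h4, one_pow] at h2
        exact h2 rfl
      refine ⟨h3, fun h4 => h2 ?_⟩
      obtain ⟨b, hb⟩ := ha (t l) (ht3 l)
      rw [← h4, hb, pow_mul, hφq, one_pow]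
    · rintro ⟨h2, h3⟩ h4
      apply h3
      have : Fact q.Prime := ⟨hq⟩
      have h5 : orderOf (φ l ^ m) = q := orderOf_eq_prime (hφq l) h2
      have h6 : q ∣ 1 + a (t l) * j := by
        rw [← h5]
        exact orderOf_dvd_of_pow_eq_one h4
      have h7 := ha (t l) (ht3 l)
      have h8 : 1 + a (t l) * j ≡ 1 + a (t l) * t l [MOD q] :=
        ((Nat.modEq_zero_iff_dvd).2 h6).trans ((Nat.modEq_zero_iff_dvd).2 h7).symm
      have h9 : a (t l) * j ≡ a (t l) * t l [MOD q] := Nat.ModEq.add_left_cancel' 1 h8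
      have h10 : q.gcd (a (t l)) = 1 := by
        refine (Nat.Prime.coprime_iff_not_dvd hq).2 fun h11 => ?_
        have h12 : q ∣ 1 := (Nat.dvd_add_left (h11.mul_right (t l))).1 h7
        exact hq.one_lt.ne' (Nat.dvd_one.1 h12)
      have h11 : j ≡ t l [MOD q] := Nat.ModEq.cancel_left_of_coprime h10 h9
      have h12 := Finset.mem_Ico.1 (ht3 l)
      have h13 := Finset.mem_Ico.1 hj
      rw [Nat.ModEq, Nat.mod_eq_of_lt h13.2, Nat.mod_eq_of_lt h12.2] at h11
      exact h11.symm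

/-- a character of squarefree level as a family -/
theorem exists_family {n f : ℕ} (hf : Squarefree f) (psi : DirichletCharacter ℂ f)
    (hpsi : psi ^ n = 1) : ∃ (C : Finset Nat.Primes) (hC : cn C = f) (φ : Ch), sup φ ⊆ C ∧
      φ ^ n = 1 ∧ hC ▸ toDC C φ = psi := by
  obtain ⟨C, rfl⟩ := TD.exists_cn f hf
  obtain ⟨φ, h1, h2⟩ := TD.toDC_surj C psi
  refine ⟨C, rfl, φ, h1, ?_, h2⟩
  refine t_td2.1 C _ _ ?_ ?_ ?_
  · exact (SUPaux φ n).trans h1
  · intro l hl
    exact absurd rfl hl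
  · rw [toDC_pow, h2, hpsi, TD.toDC_one]

open Classical in
/-- the choice of the twist -/
theorem exists_twist {n q f : ℕ} (hn : Squarefree n) (hq : q.Prime) (hqn : q ∣ n) (hq2 : q ≠ 2)
    (hf : Squarefree f) (psi : DirichletCharacter ℂ f) (hpsi : psi ^ n = 1)
    (hcard : q - 1 ≤ (psi ^ (n / q)).conductor.primeFactors.card) :
    ∃ chi : DirichletCharacter ℂ f, chi ^ q = 1 ∧
      ((psi * chi) ^ (n / q)).conductor.primeFactors.card ≤ q - 2 ∧
      ((psi * chi) ^ (n / q)).conductor ∣ (psi ^ (n / q)).conductor ∧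
      ∀ j ∈ Finset.Ico 2 q, (psi * chi ^ j) ^ (n / q) ≠ 1 ∧
        ((psi * chi ^ j) ^ (n / q)).conductor ∣ (psi ^ (n / q)).conductor ∧
        ((psi * chi ^ j) ^ (n / q)).conductor ≠ (psi ^ (n / q)).conductor := by
  have hq3 : 3 ≤ q := by
    have := hq.two_le
    omega
  obtain ⟨C, rfl, φ, hC, hφ, rfl⟩ := exists_family hf psi hpsi
  simp only at hcard hpsi ⊢
  obtain ⟨S, hS⟩ : ∃ S, S = C.filter (fun l => (φ ^ (n / q)) l ≠ 1) := ⟨_, rfl⟩
  have hsub : ∀ m, sup (φ ^ m) ⊆ C := fun m => (SUPaux φ m).trans hC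
  have hcS : (toDC C φ ^ (n / q)).conductor = cn S := by
    rw [← toDC_pow, conductor_toDC C _ (hsub _), hS]
  have hSm : ∀ l, l ∈ S ↔ (φ ^ (n / q)) l ≠ 1 := by
    intro l
    rw [hS, Finset.mem_filter]
    refine ⟨fun h => h.2, fun h => ⟨hsub (n / q) h, h⟩⟩
  rw [hcS, card_cn] at hcard
  obtain ⟨χ, t, h1, h2, h3, h4, h5⟩ := exists_twist_family hn hq hqn φ hφ S hSm hcard hq2
  have hcon : ∀ j ∈ Finset.Ico 1 q, (toDC C φ * toDC C χ ^ j) ^ (n / q) =
      toDC C ((φ * χ ^ j) ^ (n / q)) ∧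
      ((toDC C φ * toDC C χ ^ j) ^ (n / q)).conductor = cn (S.filter fun l => t l ≠ j) := by
    intro j hj
    have h6 : (toDC C φ * toDC C χ ^ j) ^ (n / q) = toDC C ((φ * χ ^ j) ^ (n / q)) := by
      rw [toDC_pow, TD.toDC_mul, toDC_pow]
    refine ⟨h6, ?_⟩
    rw [h6, conductor_toDC]
    · congr 1
      ext l
      rw [Finset.mem_filter, Finset.mem_filter, h3 j hj l]
      refine ⟨fun h => h.2, fun h => ⟨?_, h⟩⟩
      have h7 := h.1
      rw [hS, Finset.mem_filter] at h7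
      exact h7.1
    · intro l hl
      have h7 := (h3 j hj l).1 hl
      have h8 := h7.1
      rw [hS, Finset.mem_filter] at h8
      exact h8.1
  have h1q : 1 ∈ Finset.Ico 1 q := by
    rw [Finset.mem_Ico]
    omega
  refine ⟨toDC C χ, ?_, ?_, ?_, ?_⟩
  · rw [← toDC_pow, h1, TD.toDC_one]
  · have h6 := (hcon 1 h1q).2
    rw [pow_one] at h6
    rw [h6, card_cn]
    exact h5
  · have h6 := (hcon 1 h1q).2
    rw [pow_one] at h6
    rw [h6, hcS, cn_dvd_iff]
    exact Finset.filter_subset _ _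
  · intro j hj
    have hj1 : j ∈ Finset.Ico 1 q := by
      rw [Finset.mem_Ico] at hj ⊢
      omega
    have hj2 := Finset.mem_Ico.1 hj
    refine ⟨?_, ?_, ?_⟩
    · intro h6
      obtain ⟨l, hl, hl1⟩ := h4 1 h1q
      have h7 := (h3 j hj1 l).2 ⟨hl, by omega⟩
      have h8 : (φ * χ ^ j) ^ (n / q) = 1 := by
        refine t_td2.1 C _ _ ?_ ?_ ?_
        · intro l' hl'
          have h7 := (h3 j hj1 l').1 hl'
          have h8 := h7.1
          rw [hS, Finset.mem_filter] at h8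
          exact h8.1
        · intro l hl
          exact absurd rfl hl
        · rw [← (hcon j hj1).1, h6, TD.toDC_one]
      rw [h8] at h7
      exact h7 rfl
    · rw [(hcon j hj1).2, hcS, cn_dvd_iff]
      exact Finset.filter_subset _ _
    · rw [(hcon j hj1).2, hcS]
      intro h6
      obtain ⟨l, hl, hlj⟩ := h4 j hj1
      have h7 : S ⊆ S.filter fun l => t l ≠ j := by
        rw [← cn_dvd_iff, h6]
      exact (Finset.mem_filter.1 (h7 hl)).2 hlj

end Pool.DPX
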