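import Pool.Agent.H29.DPC.Defs

/-!
# DPX: twists of abelian varieties and reduction to few ramified primes, definitions
-/

set_option autoImplicit false

namespace Pool.DPX

open Polynomial Complex Pool.DPC

/-- the invariants of an abelian variety over the rationals which enter in the question: the
dimension, the real period, the local factors, and the functions `L_C(psi, z)` -/
structure Datum where
  d : ℕ
  Om : ℝ
  P : ℕ → ℚ[X]
  L : (f : ℕ) → DirichletCharacter ℂ f → ℂ → ℂ

/-- `B` has the invariants of the twist of `A` by the lattice `ℤ[mu_q]` on which the Galois group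
acts through the character `chi` of order `q` -/
structure IsTwist (q : ℕ) {m : ℕ} (chi : DirichletCharacter ℂ m) (A B : Datum) : Prop where
  dim : B.d = (q - 1) * A.d
  fac : ∀ l : ℕ, l.Prime → ¬ l ∣ m → ∀ t : ℂ, aeval t (B.P l) =
    ∏ i ∈ Finset.Ico 1 q, aeval ((chi ^ i) (l : ZMod m) * t) (A.P l)
  per : ∃ r : ℚ, r ≠ 0 ∧
    (B.Om : ℂ) * (∏ i ∈ Finset.Ico 1 q, gaussTau (chi ^ i)) ^ A.d = r * (A.Om : ℂ) ^ (q - 1)

/-- a class of abelian varieties closed under the twists of prime order dividing `n`, all of whose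
twisted `L`-functions continue to `U` -/
structure TwistClosed (n : ℕ) (U : Set ℂ) (𝒜 : Set Datum) : Prop where
  om : ∀ A ∈ 𝒜, A.Om ≠ 0
  weil : ∀ A ∈ 𝒜, Weil A.d A.P
  cont : ∀ A ∈ 𝒜, ∀ (f : ℕ) (psi : DirichletCharacter ℂ f), Squarefree f → psi.Even →
    psi ^ n = 1 → IsTwistedL A.P U psi (A.L f psi)
  twist : ∀ A ∈ 𝒜, ∀ q : ℕ, q.Prime → q ∣ n → ∀ (m : ℕ) (chi : DirichletCharacter ℂ m),
    Squarefree m → chi.Even → chi ^ q = 1 → ∃ B ∈ 𝒜, IsTwist q chi A B

/-- `psi'` lies below `psi`: it is different from `psi`, and for every prime `q` dividing `n` its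
`q`-part is the one of `psi`, or `q` is odd, the `q`-part of `psi` is ramified at `q - 1` primes at
least, and the `q`-part of `psi'` is nontrivial and has smaller conductor, dividing that of
`psi` -/
def Below (n : ℕ) {f : ℕ} (psi psi' : DirichletCharacter ℂ f) : Prop :=
  psi' ≠ psi ∧ psi' ^ n = 1 ∧ ∀ q : ℕ, q.Prime → q ∣ n →
    psi' ^ (n / q) = psi ^ (n / q) ∨
      (q ≠ 2 ∧ q - 1 ≤ (psi ^ (n / q)).conductor.primeFactors.card ∧ psi' ^ (n / q) ≠ 1 ∧
        (psi' ^ (n / q)).conductor ∣ (psi ^ (n / q)).conductor ∧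
        (psi' ^ (n / q)).conductor ≠ (psi ^ (n / q)).conductor)

end Pool.DPX
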