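import Pool.Agent.H29.DPC.S2
import Pool.Agent.H79.DPC.GSM
import Pool.Agent.H50.DPC.TD3

/-!
# DPX: Gauss sums

The Gauss sums `tau*` of all characters of squarefree level are nonzero, and the quotients
`tau*(a) tau*(b) / tau*(a b)` are moved by Galois automorphisms as the characters are.
-/

set_option autoImplicit false

namespace Pool.DPX

open Complex Pool.DPC

/-- the Gauss sum in terms of the standard additive character -/
theorem gaussTau_eq {f : ℕ} [NeZero f] (psi : DirichletCharacter ℂ f) :
    gaussTau psi = gaussSum psi (ZMod.stdAddChar (N := f)) := by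
  unfold gaussTau gaussSum
  refine Finset.sum_nbij' (fun a : ℕ => (a : ZMod f)) (fun a : ZMod f => a.val) ?_ ?_ ?_ ?_ ?_
  · intro a _
    exact Finset.mem_univ _
  · intro a _
    exact Finset.mem_range.2 (ZMod.val_lt a)
  · intro a ha
    exact ZMod.val_cast_of_lt (Finset.mem_range.1 ha)
  · intro a _
    exact ZMod.natCast_zmod_val a
  · intro a _
    have h := ZMod.stdAddChar_coe (N := f) (a : ℤ)
    rw [Int.cast_natCast, Int.cast_natCast] at h
    rw [h]

/-- the Gauss sum of a primitive character is nonzero -/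
theorem gaussTau_ne_of_primitive {f : ℕ} [NeZero f] {psi : DirichletCharacter ℂ f}
    (h : psi.IsPrimitive) : gaussTau psi ≠ 0 := by
  intro h0
  rw [gaussTau_eq] at h0
  have h1 : ZMod.dft (psi : ZMod f → ℂ) = 0 := by
    funext k
    have h2 := DirichletCharacter.IsPrimitive.fourierTransform_eq_inv_mul_gaussSum h k
    rw [h2, h0, mul_zero]
    rfl
  have h2 : (psi : ZMod f → ℂ) = 0 := by
    have h3 := ZMod.dft.injective (a₁ := (psi : ZMod f → ℂ)) (a₂ := 0)
    exact h3 (by rw [h1, map_zero])
  have h3 := congrFun h2 1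
  rw [map_one] at h3
  exact one_ne_zero h3

/-- a family is primitive at the product of its ramified primes -/
theorem primitive_toDC (S : Finset Nat.Primes) (φ : Ch) (h : sup φ = S) :
    (toDC S φ).IsPrimitive := by
  have : NeZero (cn S) := ⟨TD.cn_ne_zero S⟩
  have h1 : cn S ∣ (toDC S φ).conductor := by
    unfold cn
    refine Finset.prod_dvd_of_isRelPrime (fun l hl m hm hlm => ?_) fun l hl => ?_
    · rw [Function.onFun, ← Nat.coprime_iff_isRelPrime]
      exact (Nat.coprime_primes l.2 m.2).2 fun h2 => hlm (Subtype.ext h2)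
    · refine (TD.conductor_iff S φ l h.subset hl).2 ?_
      have h2 : l ∈ sup φ := by
        rw [h]
        exact hl
      exact h2
  exact Nat.dvd_antisymm (DirichletCharacter.conductor_dvd_level _) h1

theorem gaussTau_toDC_ne (C : Finset Nat.Primes) (φ : Ch) (h : sup φ ⊆ C) :
    gaussTau (toDC C φ) ≠ 0 := by
  classical
  obtain ⟨S, hS⟩ : ∃ S : Finset Nat.Primes, (S : Set Nat.Primes) = sup φ := by
    have hf : (sup φ).Finite := C.finite_toSet.subset h
    exact ⟨hf.toFinset, hf.coe_toFinset⟩
  have key : ∀ D : Finset Nat.Primes, Disjoint S D → gaussTau (toDC (S ∪ D) φ) ≠ 0 := by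
    intro D
    induction D using Finset.induction_on with
    | empty =>
      intro _
      have : NeZero (cn S) := ⟨TD.cn_ne_zero S⟩
      rw [Finset.union_empty]
      exact gaussTau_ne_of_primitive (primitive_toDC S φ hS.symm)
    | insert p D hp ih =>
      intro hd
      rw [Finset.disjoint_insert_right] at hd
      have hpC : p ∉ S ∪ D := by
        rw [Finset.mem_union, not_or]
        exact ⟨hd.1, hp⟩
      have hcn : cn (insert p (S ∪ D)) = (p : ℕ) * cn (S ∪ D) := Finset.prod_insert hpC
      have hdvd : cn (S ∪ D) ∣ cn (insert p (S ∪ D)) := by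
        rw [hcn]
        exact dvd_mul_left _ _
      have hsub : sup φ ⊆ ((S ∪ D : Finset Nat.Primes) : Set Nat.Primes) := by
        rw [Finset.coe_union, hS]
        exact Set.subset_union_left
      have hnd : ¬ (p : ℕ) ∣ cn (S ∪ D) := by
        rw [TD.dvd_cn_iff]
        exact hpC
      rw [Finset.union_insert, TD.toDC_changeLevel (S ∪ D) (insert p (S ∪ D)) φ hdvd hsub
        (Finset.subset_insert _ _),
        t_GSM (cn (S ∪ D)) (cn (insert p (S ∪ D))) p hdvd (toDC (S ∪ D) φ) (TD.cn_ne_zero _)
          p.2 hnd hcn]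
      refine mul_ne_zero (neg_ne_zero.2 ?_) (ih hd.2)
      have hu : IsUnit ((p : ℕ) : ZMod (cn (S ∪ D))) :=
        (ZMod.isUnit_iff_coprime _ _).2 ((Nat.Prime.coprime_iff_not_dvd p.2).2 hnd)
      obtain ⟨u, hu⟩ := hu
      rw [← hu]
      exact (Units.map (toDC (S ∪ D) φ : ZMod (cn (S ∪ D)) →* ℂ) u).ne_zero
  have hSC : S ⊆ C := by
    rw [← Finset.coe_subset, hS]
    exact h
  have h1 := key (C \ S) Finset.disjoint_sdiff
  rwa [Finset.union_sdiff_of_subset hSC] at h1

end Pool.DPX
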