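import Pool.Agent.H29.DPC.S2
import Pool.Agent.H34.DPC.GAL
import Pool.Agent.H29.DPX.GS

/-!
# DPX: sequences moved by Galois automorphisms
-/

set_option autoImplicit false

namespace Pool.DPX

open Complex Pool.DPC

/-- `v 1` is in `k(mu_N)`, and an automorphism which raises the `N`-th roots of unity to the power
`s` moves it to `v s` -/
def EQ (k : IntermediateField ℚ ℂ) (N : ℕ) (v : ℕ → ℂ) : Prop :=
  ∃ x : cyc k N, (x : ℂ) = v 1 ∧ ∀ (g : cyc k N ≃ₐ[k] cyc k N) (s : ℕ), Pow g s →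
    ((g x : cyc k N) : ℂ) = v s

namespace EQ

variable {k : IntermediateField ℚ ℂ} {N : ℕ} {v w : ℕ → ℂ}

theorem mul (hv : EQ k N v) (hw : EQ k N w) : EQ k N (fun s => v s * w s) := by
  obtain ⟨x, hx, hx'⟩ := hv
  obtain ⟨y, hy, hy'⟩ := hw
  refine ⟨x * y, ?_, fun g s hg => ?_⟩
  · push_cast
    rw [hx, hy]
  · rw [map_mul]
    push_cast
    rw [hx' g s hg, hy' g s hg]

theorem inv (hv : EQ k N v) : EQ k N (fun s => (v s)⁻¹) := by
  obtain ⟨x, hx, hx'⟩ := hv
  refine ⟨x⁻¹, ?_, fun g s hg => ?_⟩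
  · push_cast
    rw [hx]
  · rw [map_inv₀]
    push_cast
    rw [hx' g s hg]

theorem one : EQ k N (fun _ => 1) := by
  refine ⟨1, ?_, fun g s hg => ?_⟩
  · push_cast
    rfl
  · rw [map_one]
    push_cast
    rfl

theorem pow (hv : EQ k N v) (m : ℕ) : EQ k N (fun s => v s ^ m) := by
  obtain ⟨x, hx, hx'⟩ := hv
  refine ⟨x ^ m, ?_, fun g s hg => ?_⟩
  · push_cast
    rw [hx]
  · rw [map_pow]
    push_cast
    rw [hx' g s hg]

theorem prod {ι : Type*} (S : Finset ι) {v : ι → ℕ → ℂ} (hv : ∀ i ∈ S, EQ k N (v i)) :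
    EQ k N (fun s => ∏ i ∈ S, v i s) := by
  classical
  induction S using Finset.induction_on with
  | empty =>
    simp only [Finset.prod_empty]
    exact one
  | insert i S hi ih =>
    simp only [Finset.prod_insert hi]
    exact (hv i (Finset.mem_insert_self i S)).mul
      (ih fun j hj => hv j (Finset.mem_insert_of_mem hj))

theorem const (q : ℚ) : EQ k N (fun _ => (q : ℂ)) := by
  refine ⟨(q : cyc k N), ?_, fun g s hg => ?_⟩
  · push_cast
    rfl
  · rw [map_ratCast]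
    push_cast
    rfl

/-- a factor can be removed -/
theorem cancel (hvw : EQ k N (fun s => v s * w s)) (hw : EQ k N w) (h : w 1 ≠ 0) :
    EQ k N v := by
  obtain ⟨x, hx, hx'⟩ := hvw
  obtain ⟨y, hy, hy'⟩ := hw
  have hy0 : y ≠ 0 := by
    intro h0
    apply h
    rw [← hy, h0]
    push_cast
    rfl
  refine ⟨x / y, ?_, fun g s hg => ?_⟩
  · push_cast
    rw [hx, hy, mul_div_assoc, div_self h, mul_one]
  · have h1 : w s ≠ 0 := by
      rw [← hy' g s hg]
      intro h2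
      have h3 : g y = 0 := Subtype.ext h2
      exact hy0 ((map_eq_zero g).1 h3)
    rw [map_div₀]
    push_cast
    rw [hx' g s hg, hy' g s hg, mul_div_assoc, div_self h1, mul_one]

theorem congr' (hv : EQ k N v) (h : ∀ s : ℕ, s.Coprime N → v s = w s) : EQ k N w := by
  obtain ⟨x, hx, hx'⟩ := hv
  refine ⟨x, ?_, fun g s hg => ?_⟩
  · rw [hx, h 1 (Nat.coprime_one_left N)]
  · rw [hx' g s hg, h s hg.1]

end EQ

theorem pow_unit {f n : ℕ} (psi : DirichletCharacter ℂ f) (h : psi ^ n = 1) (u : (ZMod f)ˣ) :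
    psi (u : ZMod f) ^ n = 1 := by
  rw [← MulChar.pow_apply_coe, h, MulChar.one_apply_coe]

theorem stdAddChar_pow {f N : ℕ} [NeZero f] (hf : f ∣ N) (a : ZMod f) :
    (ZMod.stdAddChar (N := f) a) ^ N = 1 := by
  rw [← AddChar.map_nsmul_eq_pow]
  have h1 : N • a = 0 := by
    rw [nsmul_eq_mul, (ZMod.natCast_eq_zero_iff N f).2 hf, zero_mul]
  rw [h1, AddChar.map_zero_eq_one]

/-- the Galois action on Gauss sums -/
theorem gauss_gal (k : IntermediateField ℚ ℂ) {N f : ℕ} (hf : f ≠ 0) (hfN : f ∣ N)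
    (psi : DirichletCharacter ℂ f) (hpsi : psi ^ N = 1) :
    ∃ x : cyc k N, (x : ℂ) = gaussTau psi ∧
      ∀ (g : cyc k N ≃ₐ[k] cyc k N) (s : ℕ), Pow g s →
        (psi ^ s) (s : ZMod f) * ((g x : cyc k N) : ℂ) = gaussTau (psi ^ s) := by
  have : NeZero f := ⟨hf⟩
  classical
  have hX : ∀ a : ZMod f, ∃ y : cyc k N, (y : ℂ) = psi a ∧ ∀ (g : cyc k N ≃ₐ[k] cyc k N) (s : ℕ),
      Pow g s → ((g y : cyc k N) : ℂ) = (psi ^ s) a := by
    intro a
    by_cases ha : IsUnit a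
    · obtain ⟨u, rfl⟩ := ha
      have h1 := pow_unit psi hpsi u
      refine ⟨⟨psi u, IntermediateField.subset_adjoin _ _ h1⟩, rfl, fun g s hg => ?_⟩
      rw [hg.2 _ (Subtype.ext h1), MulChar.pow_apply_coe]
      rfl
    · refine ⟨0, ?_, fun g s hg => ?_⟩
      · rw [MulChar.map_nonunit _ ha]
        rfl
      · rw [MulChar.map_nonunit _ ha, map_zero]
        rfl
  have hE : ∀ a : ZMod f, ∃ y : cyc k N, (y : ℂ) = ZMod.stdAddChar a ∧
      ∀ (g : cyc k N ≃ₐ[k] cyc k N) (s : ℕ), Pow g s →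
        ((g y : cyc k N) : ℂ) = (ZMod.stdAddChar.mulShift (s : ZMod f)) a := by
    intro a
    have h1 := stdAddChar_pow hfN a
    refine ⟨⟨ZMod.stdAddChar a, IntermediateField.subset_adjoin _ _ h1⟩, rfl, fun g s hg => ?_⟩
    rw [hg.2 _ (Subtype.ext h1), AddChar.mulShift_apply, ← nsmul_eq_mul,
      AddChar.map_nsmul_eq_pow]
    rfl
  choose X hX1 hX2 using hX
  choose E hE1 hE2 using hE
  refine ⟨∑ a : ZMod f, X a * E a, ?_, fun g s hg => ?_⟩
  · push_cast
    rw [gaussTau_eq, gaussSum]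
    exact Finset.sum_congr rfl fun a _ => by rw [hX1, hE1]
  · have h1 : ((g (∑ a : ZMod f, X a * E a) : cyc k N) : ℂ) =
        gaussSum (psi ^ s) (ZMod.stdAddChar.mulShift (s : ZMod f)) := by
      rw [map_sum, gaussSum]
      push_cast
      refine Finset.sum_congr rfl fun a _ => ?_
      rw [map_mul]
      push_cast
      rw [hX2 a g s hg, hE2 a g s hg]
    have hs : s.Coprime f := Nat.Coprime.coprime_dvd_right hfN hg.1
    have h2 := gaussSum_mulShift (psi ^ s) (ZMod.stdAddChar (N := f)) (ZMod.unitOfCoprime s hs)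
    rw [ZMod.coe_unitOfCoprime] at h2
    rw [h1, gaussTau_eq, h2]

/-- the quotients of Gauss sums -/
noncomputable def jac {f : ℕ} (a b : DirichletCharacter ℂ f) : ℂ :=
  gaussTau a * gaussTau b / gaussTau (a * b)

theorem jac_eq (k : IntermediateField ℚ ℂ) {N f : ℕ} (hf : f ≠ 0) (hfN : f ∣ N)
    (a b : DirichletCharacter ℂ f) (ha : a ^ N = 1) (hb : b ^ N = 1) :
    EQ k N (fun s => jac (a ^ s) (b ^ s)) := by
  obtain ⟨x, hx, hx'⟩ := gauss_gal k hf hfN a ha
  obtain ⟨y, hy, hy'⟩ := gauss_gal k hf hfN b hb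
  obtain ⟨z, hz, hz'⟩ := gauss_gal k hf hfN (a * b) (by rw [mul_pow, ha, hb, one_mul])
  refine ⟨x * y / z, ?_, fun g s hg => ?_⟩
  · push_cast
    unfold jac
    rw [hx, hy, hz, pow_one, pow_one]
  · have hs : s.Coprime f := Nat.Coprime.coprime_dvd_right hfN hg.1
    have hne : ∀ c : DirichletCharacter ℂ f, c (s : ZMod f) ≠ 0 := fun c => by
      rw [← ZMod.coe_unitOfCoprime s hs]
      exact (Units.map (c : ZMod f →* ℂ) (ZMod.unitOfCoprime s hs)).ne_zero
    have h1 := hx' g s hg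
    have h2 := hy' g s hg
    have h3 := hz' g s hg
    have h4 : ((a * b) ^ s) (s : ZMod f) = (a ^ s) (s : ZMod f) * (b ^ s) (s : ZMod f) := by
      rw [mul_pow, MulChar.mul_apply]
    rw [h4] at h3
    change _ = gaussTau (a ^ s) * gaussTau (b ^ s) / gaussTau (a ^ s * b ^ s)
    rw [← mul_pow a b s, ← h1, ← h2, ← h3, map_div₀, map_mul]
    push_cast
    have h5 := hne (a ^ s)
    have h6 := hne (b ^ s)
    rw [mul_mul_mul_comm, mul_div_mul_left _ _ (mul_ne_zero h5 h6)]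

end Pool.DPX
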