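import Pool.Agent.H29.DPX.Defs
import Pool.Agent.H29.DPX.EQ

/-!
# DPX: the values of a twist
-/

set_option autoImplicit false

namespace Pool.DPX

open Polynomial Complex Pool.DPC

theorem L_twist {n f q : ℕ} {U : Set ℂ} (hU : Region U) {A B : Datum}
    (hA : HL n A.P U A.L) (hB : HL n B.P U B.L) (hf : Squarefree f)
    (chi : DirichletCharacter ℂ f) (hchi : chi.Even) (hchi' : chi ^ n = 1)
    (hfac : ∀ l : ℕ, l.Prime → ¬ l ∣ f → ∀ t : ℂ, aeval t (B.P l) =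
      ∏ i ∈ Finset.Ico 1 q, aeval ((chi ^ i) (l : ZMod f) * t) (A.P l))
    (psi : DirichletCharacter ℂ f) (hpsi : psi.Even) (hpsi' : psi ^ n = 1) :
    B.L f psi 1 = ∏ i ∈ Finset.Ico 1 q, A.L f (psi * chi ^ i) 1 := by
  have hA' : ∀ i : ℕ, IsTwistedL A.P U (psi * chi ^ i) (A.L f (psi * chi ^ i)) := fun i => by
    refine hA f _ hf ?_ ?_
    · unfold DirichletCharacter.Even at hchi hpsi ⊢
      have hu : ((-1 : (ZMod f)ˣ) : ZMod f) = -1 := by simp
      rw [MulChar.mul_apply, hpsi, ← hu, MulChar.pow_apply_coe, hu, hchi, one_pow, one_mul]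
    · rw [mul_pow, hpsi', one_mul, ← pow_mul, mul_comm, pow_mul, hchi', one_pow]
  have hB' := hB f psi hf hpsi hpsi'
  have hM : DifferentiableOn ℂ (fun z => ∏ i ∈ Finset.Ico 1 q, A.L f (psi * chi ^ i) z) U :=
    DifferentiableOn.fun_finsetProd fun i _ => (hA' i).1
  have h2U : (2 : ℂ) ∈ U := hU.half 2 (by norm_num)
  have half : ∀ z : ℂ, 3 / 2 < z.re →
      B.L f psi z = ∏ i ∈ Finset.Ico 1 q, A.L f (psi * chi ^ i) z := by
    intro z hz
    have h1 := hB'.2 z hz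
    have h2 := hasProd_prod (s := Finset.Ico 1 q) fun i (_ : i ∈ Finset.Ico 1 q) => (hA' i).2 z hz
    have h3 : (fun l : {l : ℕ // l.Prime ∧ ¬ l ∣ f} => eulerFactor B.P psi z l) =
        fun l : {l : ℕ // l.Prime ∧ ¬ l ∣ f} =>
          ∏ i ∈ Finset.Ico 1 q, eulerFactor A.P (psi * chi ^ i) z l := by
      funext l
      unfold eulerFactor
      rw [hfac l l.2.1 l.2.2, ← Finset.prod_inv_distrib]
      refine Finset.prod_congr rfl fun i _ => ?_
      rw [MulChar.mul_apply, mul_comm (psi (l : ZMod f)) ((chi ^ i) (l : ZMod f)), mul_assoc]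
    rw [h3] at h1
    exact h1.unique h2
  have hev : B.L f psi =ᶠ[nhds (2 : ℂ)]
      (fun z => ∏ i ∈ Finset.Ico 1 q, A.L f (psi * chi ^ i) z) := by
    have hopen : IsOpen {z : ℂ | 3 / 2 < z.re} := isOpen_lt continuous_const Complex.continuous_re
    have hmem : (2 : ℂ) ∈ {z : ℂ | 3 / 2 < z.re} := by
      show (3 : ℝ) / 2 < (2 : ℂ).re
      norm_num
    filter_upwards [hopen.mem_nhds hmem] with z hz
    exact half z hz
  have hEq := (hB'.1.analyticOnNhd hU.op).eqOn_of_preconnected_of_eventuallyEq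
    (hM.analyticOnNhd hU.op) hU.conn h2U hev
  exact hEq hU.one

/-- the Gauss sums of the powers, in the other order -/
theorem gauss_refl {f q : ℕ} (chi : DirichletCharacter ℂ f) (h : chi ^ q = 1) :
    ∏ i ∈ Finset.Ico 1 q, gaussTau (chi ^ i) =
      ∏ i ∈ Finset.Ico 1 q, gaussTau (chi⁻¹ ^ i) := by
  refine Finset.prod_nbij' (fun i => q - i) (fun i => q - i) ?_ ?_ ?_ ?_ ?_
  · intro i hi
    rw [Finset.mem_Ico] at hi ⊢
    omega
  · intro i hi
    rw [Finset.mem_Ico] at hi ⊢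
    omega
  · intro i hi
    rw [Finset.mem_Ico] at hi
    omega
  · intro i hi
    rw [Finset.mem_Ico] at hi
    omega
  · intro i hi
    rw [Finset.mem_Ico] at hi
    have h1 : chi ^ i = chi⁻¹ ^ (q - i) := by
      rw [inv_pow, eq_inv_iff_mul_eq_one, ← pow_add]
      have h2 : i + (q - i) = q := by omega
      rw [h2, h]
    rw [h1]

/-- the normalised values of a twist -/
theorem value_twist {n f q : ℕ} {U : Set ℂ} (hU : Region U) {A B : Datum}
    (hA : HL n A.P U A.L) (hB : HL n B.P U B.L) (hf : Squarefree f)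
    (hg : ∀ a : DirichletCharacter ℂ f, gaussTau a ≠ 0) (hOA : A.Om ≠ 0)
    (chi : DirichletCharacter ℂ f) (hchi : chi.Even) (hchi' : chi ^ n = 1) (hchi2 : chi ^ q = 1)
    (hT : IsTwist q chi A B) : ∃ r : ℚ, r ≠ 0 ∧
      ∀ psi : DirichletCharacter ℂ f, psi.Even → psi ^ n = 1 →
        normValue B.d B.Om (B.L f) psi * r =
          (∏ i ∈ Finset.Ico 1 q, jac psi⁻¹ (chi⁻¹ ^ i)) ^ A.d *
            ∏ i ∈ Finset.Ico 1 q, normValue A.d A.Om (A.L f) (psi * chi ^ i) := by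
  obtain ⟨r, hr, hper⟩ := hT.per
  refine ⟨r, hr, fun psi hpsi hpsi' => ?_⟩
  have hL := L_twist hU hA hB hf chi hchi hchi' hT.fac psi hpsi hpsi'
  have hOA' : (A.Om : ℂ) ≠ 0 := by exact_mod_cast hOA
  have hr' : (r : ℂ) ≠ 0 := by exact_mod_cast hr
  have hcard : (Finset.Ico 1 q).card = q - 1 := Nat.card_Ico 1 q
  have hOB : (B.Om : ℂ) ≠ 0 := by
    intro h0
    rw [h0, zero_mul] at hper
    exact mul_ne_zero hr' (pow_ne_zero _ hOA') hper.symm
  have hG : ∏ i ∈ Finset.Ico 1 q, gaussTau (chi ^ i) ≠ 0 :=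
    Finset.prod_ne_zero_iff.2 fun i _ => hg _
  unfold normValue
  rw [hL, hT.dim]
  have e1 : ∏ i ∈ Finset.Ico 1 q, jac psi⁻¹ (chi⁻¹ ^ i) =
      gaussTau psi⁻¹ ^ (q - 1) * (∏ i ∈ Finset.Ico 1 q, gaussTau (chi ^ i)) /
        ∏ i ∈ Finset.Ico 1 q, gaussTau (psi * chi ^ i)⁻¹ := by
    unfold jac
    rw [Finset.prod_div_distrib, Finset.prod_mul_distrib, Finset.prod_const, hcard,
      ← gauss_refl chi hchi2]
    congr 1
    refine Finset.prod_congr rfl fun i _ => ?_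
    rw [mul_inv, inv_pow]
  have e2 : ∏ i ∈ Finset.Ico 1 q, (gaussTau (psi * chi ^ i)⁻¹ ^ A.d *
      A.L f (psi * chi ^ i) 1 / (A.Om : ℂ)) =
      (∏ i ∈ Finset.Ico 1 q, gaussTau (psi * chi ^ i)⁻¹) ^ A.d *
        (∏ i ∈ Finset.Ico 1 q, A.L f (psi * chi ^ i) 1) / (A.Om : ℂ) ^ (q - 1) := by
    rw [Finset.prod_div_distrib, Finset.prod_mul_distrib, Finset.prod_const, hcard,
      Finset.prod_pow]
  have hG2 : ∏ i ∈ Finset.Ico 1 q, gaussTau (psi * chi ^ i)⁻¹ ≠ 0 :=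
    Finset.prod_ne_zero_iff.2 fun i _ => hg _
  rw [e1, e2]
  generalize (∏ i ∈ Finset.Ico 1 q, gaussTau (psi * chi ^ i)⁻¹) = X at *
  generalize (∏ i ∈ Finset.Ico 1 q, gaussTau (chi ^ i)) = Y at *
  generalize (∏ i ∈ Finset.Ico 1 q, A.L f (psi * chi ^ i) 1) = Z at *
  rw [div_pow, mul_pow, ← pow_mul, div_mul_eq_mul_div, div_mul_eq_mul_div, div_eq_div_iff hOB
    (pow_ne_zero _ hG2), mul_div_assoc', div_mul_eq_mul_div, eq_div_iff (pow_ne_zero _ hOA')]
  linear_combination (-(gaussTau psi⁻¹ ^ ((q - 1) * A.d) * Z * X ^ A.d)) * hper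

end Pool.DPX
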