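import Pool.Agent.H29.DPX.Base

/-!
# DPX: the theorem
-/

set_option autoImplicit false

namespace Pool.DPX

open Polynomial Complex Pool.DPC

/-- the hypothesis for the characters with few ramified primes -/
def Few (k : IntermediateField ℚ ℂ) (n : ℕ) (A : Datum) : Prop :=
  ∀ (f : ℕ) (psi : DirichletCharacter ℂ f), FieldData n f (Subgroup.zpowers psi) →
    (∀ q : ℕ, q.Prime → q ∣ n → (psi ^ (n / q)).conductor.primeFactors.card ≤ q - 2) →
    Equivariant k (normValue A.d A.Om (A.L f)) psi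

/-- the number of ramified primes of the odd parts -/
noncomputable def meas (n : ℕ) {f : ℕ} (psi : DirichletCharacter ℂ f) : ℕ :=
  ∑ q ∈ n.primeFactors.filter (fun q => q ≠ 2), (psi ^ (n / q)).conductor.primeFactors.card

theorem dvd_div_of_ne {n p q : ℕ} (hp : p.Prime) (hpn : p ∣ n) (hq : q.Prime) (hqn : q ∣ n)
    (hpq : p ≠ q) : q ∣ n / p := by
  obtain ⟨m, rfl⟩ := hpn
  rw [Nat.mul_div_cancel_left m hp.pos]
  have h1 : q.Coprime p := (Nat.coprime_primes hq hp).2 (Ne.symm hpq)
  exact h1.dvd_of_dvd_mul_left hqn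

theorem pow_part {n p q f : ℕ} (hp : p.Prime) (hpn : p ∣ n) (hq : q.Prime) (hqn : q ∣ n)
    (hpq : p ≠ q) (psi chi : DirichletCharacter ℂ f) (hchi : chi ^ q = 1) :
    (psi * chi) ^ (n / p) = psi ^ (n / p) := by
  obtain ⟨m, hm⟩ := dvd_div_of_ne hp hpn hq hqn hpq
  rw [mul_pow, hm, pow_mul chi, hchi, one_pow, mul_one]

theorem odd_even {f m : ℕ} (hm : Odd m) (chi : DirichletCharacter ℂ f)
    (h : (chi ^ m).Even) : chi.Even := by
  unfold DirichletCharacter.Even at h ⊢
  have hu : ((-1 : (ZMod f)ˣ) : ZMod f) = -1 := by simp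
  have h1 : chi (-1) ^ 2 = 1 := by
    rw [← hu, ← MulChar.pow_apply_coe, MulChar.pow_apply_coe, ← map_pow, ← Units.val_pow_eq_pow_val,
      neg_one_sq, Units.val_one, map_one]
  have h2 : chi (-1) ^ m = 1 := by
    rw [← h, ← hu, MulChar.pow_apply_coe]
  obtain ⟨j, rfl⟩ := hm
  rw [pow_add, pow_mul, h1, one_pow, one_mul, pow_one] at h2
  exact h2

theorem one_even {f : ℕ} : (1 : DirichletCharacter ℂ f).Even := by
  unfold DirichletCharacter.Even
  rw [MulChar.one_apply isUnit_one.neg]

theorem odd_half {n : ℕ} (hn : Squarefree n) (h2 : 2 ∣ n) : Odd (n / 2) := by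
  rw [← Nat.not_even_iff_odd, even_iff_two_dvd]
  intro h6
  have h7 : 2 * 2 ∣ n := by
    obtain ⟨m, hm⟩ := h2
    rw [hm] at h6 ⊢
    rw [Nat.mul_div_cancel_left m (by norm_num)] at h6
    exact Nat.mul_dvd_mul_left 2 h6
  have h8 := hn 2 h7
  rw [Nat.isUnit_iff] at h8
  omega

theorem below_even {n f : ℕ} (hn : Squarefree n) {psi psi' : DirichletCharacter ℂ f}
    (h : psi.Even) (hb : Below n psi psi') : psi'.Even := by
  by_cases h2 : 2 ∣ n
  · have h3 := hb.2.2 2 Nat.prime_two h2
    have h4 : psi' ^ (n / 2) = psi ^ (n / 2) := by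
      rcases h3 with h3 | h3
      · exact h3
      · exact absurd rfl h3.1
    refine odd_even (odd_half hn h2) psi' ?_
    rw [h4]
    exact even_pow h _
  · have h5 : Odd n := by
      rw [← Nat.not_even_iff_odd, even_iff_two_dvd]
      exact h2
    refine odd_even h5 psi' ?_
    rw [hb.2.1]
    exact one_even

theorem card_lt_of_dvd {a b : ℕ} (hb : Squarefree b) (h : a ∣ b) (hne : a ≠ b) :
    a.primeFactors.card < b.primeFactors.card := by
  have hb0 : b ≠ 0 := hb.ne_zero
  have h1 : a.primeFactors ⊆ b.primeFactors := Nat.primeFactors_mono h hb0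
  refine Finset.card_lt_card (lt_of_le_of_ne h1 fun h2 => hne ?_)
  rw [← Nat.prod_primeFactors_of_squarefree hb, ← h2,
    Nat.prod_primeFactors_of_squarefree (hb.squarefree_of_dvd h)]

theorem meas_lt {n q f : ℕ} (hn : 0 < n) (hq : q.Prime) (hqn : q ∣ n)
    (hq2 : q ≠ 2) (psi chi : DirichletCharacter ℂ f) (hchi : chi ^ q = 1)
    (h : ((psi * chi) ^ (n / q)).conductor.primeFactors.card <
      (psi ^ (n / q)).conductor.primeFactors.card) : meas n (psi * chi) < meas n psi := by
  unfold meas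
  refine Finset.sum_lt_sum (fun p hp => ?_) ⟨q, ?_, h⟩
  · rw [Finset.mem_filter, Nat.mem_primeFactors] at hp
    by_cases hpq : p = q
    · rw [hpq]
      exact h.le
    · rw [pow_part hp.1.1 hp.1.2.1 hq hqn hpq psi chi hchi]
  · rw [Finset.mem_filter, Nat.mem_primeFactors]
    exact ⟨⟨hq, hqn, hn.ne'⟩, hq2⟩

theorem below_of_below {n q f : ℕ} (hq : q.Prime) (hqn : q ∣ n) (hq2 : q ≠ 2)
    (psi chi : DirichletCharacter ℂ f) (hchi : chi ^ q = 1)
    (hcard : q - 1 ≤ (psi ^ (n / q)).conductor.primeFactors.card)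
    (h1 : (psi * chi) ^ (n / q) ≠ 1)
    (h2 : ((psi * chi) ^ (n / q)).conductor ∣ (psi ^ (n / q)).conductor)
    (h3 : ((psi * chi) ^ (n / q)).conductor ≠ (psi ^ (n / q)).conductor)
    (psi' : DirichletCharacter ℂ f) (hb : Below n (psi * chi) psi') : Below n psi psi' := by
  have hq' : psi' ^ (n / q) ≠ 1 ∧ (psi' ^ (n / q)).conductor ∣ (psi ^ (n / q)).conductor ∧
      (psi' ^ (n / q)).conductor ≠ (psi ^ (n / q)).conductor := by
    rcases hb.2.2 q hq hqn with h4 | ⟨-, -, h5, h6, h7⟩
    · rw [h4]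
      exact ⟨h1, h2, h3⟩
    · refine ⟨h5, h6.trans h2, fun h8 => h7 ?_⟩
      rw [h8] at h6 ⊢
      exact Nat.dvd_antisymm h6 h2
  refine ⟨fun h4 => ?_, hb.2.1, fun p hp hpn => ?_⟩
  · rw [h4] at hq'
    exact hq'.2.2 rfl
  · by_cases hpq : p = q
    · rw [hpq]
      exact Or.inr ⟨hq2, hcard, hq'⟩
    · have h4 := hb.2.2 p hp hpn
      rw [pow_part hp hpn hq hqn hpq psi chi hchi] at h4
      exact h4

theorem below_self {n q f : ℕ} (hq : q.Prime) (hqn : q ∣ n) (hq2 : q ≠ 2)
    (psi chi : DirichletCharacter ℂ f) (hpsi : psi ^ n = 1) (hchi : chi ^ q = 1)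
    (hcard : q - 1 ≤ (psi ^ (n / q)).conductor.primeFactors.card)
    (h1 : (psi * chi) ^ (n / q) ≠ 1)
    (h2 : ((psi * chi) ^ (n / q)).conductor ∣ (psi ^ (n / q)).conductor)
    (h3 : ((psi * chi) ^ (n / q)).conductor ≠ (psi ^ (n / q)).conductor) :
    Below n psi (psi * chi) := by
  refine ⟨fun h4 => ?_, ?_, fun p hp hpn => ?_⟩
  · rw [h4] at h3
    exact h3 rfl
  · obtain ⟨m, hm⟩ := hqn
    rw [mul_pow, hpsi, one_mul, hm, pow_mul, hchi, one_pow]
  · by_cases hpq : p = q
    · rw [hpq]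
      exact Or.inr ⟨hq2, hcard, h1, h2, h3⟩
    · exact Or.inl (pow_part hp hpn hq hqn hpq psi chi hchi)

theorem main_ind {n f : ℕ} (hn : Squarefree n) {U : Set ℂ} (hU : Region U) {𝒜 : Set Datum}
    (h𝒜 : TwistClosed n U 𝒜) (k : IntermediateField ℚ ℂ) (H : ∀ A ∈ 𝒜, Few k n A)
    (hf : Squarefree f) : ∀ m : ℕ, ∀ A ∈ 𝒜, ∀ psi : DirichletCharacter ℂ f, psi.Even →
      psi ^ n = 1 → meas n psi < m → (∀ psi', Below n psi psi' → A.L f psi' 1 ≠ 0) →
      EQv k (n * f) A psi := by
  have hn0 : 0 < n := Nat.pos_of_ne_zero hn.ne_zero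
  have hN : 0 < n * f := Nat.mul_pos hn0 (Nat.pos_of_ne_zero hf.ne_zero)
  have hnN : n ∣ n * f := dvd_mul_right _ _
  have hfN : f ∣ n * f := dvd_mul_left _ _
  have hg : ∀ a : DirichletCharacter ℂ f, gaussTau a ≠ 0 := by
    intro a
    obtain ⟨C, rfl⟩ := TD.exists_cn f hf
    obtain ⟨φ, h1, rfl⟩ := TD.toDC_surj C a
    exact gaussTau_toDC_ne C φ h1
  have hHL : ∀ A ∈ 𝒜, HL n A.P U A.L := fun A hA f psi => h𝒜.cont A hA f psi
  intro m
  induction m with
  | zero =>
    intro A _ psi _ _ h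
    exact absurd h (Nat.not_lt_zero _)
  | succ m ih =>
    intro A hA psi hpsi hpsi' hm hne
    by_cases hbig : ∃ q : ℕ, q.Prime ∧ q ∣ n ∧ q ≠ 2 ∧
        q - 1 ≤ (psi ^ (n / q)).conductor.primeFactors.card
    · obtain ⟨q, hq, hqn, hq2, hcard⟩ := hbig
      have hq3 : 3 ≤ q := by
        have := hq.two_le
        omega
      obtain ⟨chi, hchi, hc1, hc2, hc3⟩ := exists_twist hn hq hqn hq2 hf psi hpsi' hcard
      have hchi' : ∀ j : ℕ, (chi ^ j) ^ q = 1 := fun j => by
        rw [← pow_mul, mul_comm, pow_mul, hchi, one_pow]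
      have hchin : chi ^ n = 1 := by
        obtain ⟨m, hm⟩ := hqn
        rw [hm, pow_mul, hchi, one_pow]
      have hchie : chi.Even := by
        refine odd_even (hq.odd_of_ne_two hq2) chi ?_
        rw [hchi]
        exact one_even
      obtain ⟨B, hB, hT⟩ := h𝒜.twist A hA q hq hqn f chi hf hchie hchi
      have hsq : Squarefree (psi ^ (n / q)).conductor :=
        hf.squarefree_of_dvd (DirichletCharacter.conductor_dvd_level _)
      have hmul : ∀ c : DirichletCharacter ℂ f, c ^ q = 1 → (psi * c) ^ n = 1 := fun c hc => by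
        obtain ⟨m, hm⟩ := hqn
        rw [mul_pow, hpsi', one_mul, hm, pow_mul, hc, one_pow]
      refine step hU hq hqn hnN hfN (hHL A hA) (hHL B hB) hf hg (h𝒜.om A hA) chi hchie hchi hT
        psi hpsi hpsi' ?_ fun t ht => ?_
      · refine ih B hB (psi * chi) (even_mul hpsi hchie) (hmul chi hchi) ?_ fun psi' hb => ?_
        · refine lt_of_lt_of_le (meas_lt hn0 hq hqn hq2 psi chi hchi ?_) (Nat.lt_succ_iff.1 hm)
          omega
        · have hb1 : psi' ^ (n / q) = (psi * chi) ^ (n / q) := by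
            rcases hb.2.2 q hq hqn with h4 | ⟨-, h5, -⟩
            · exact h4
            · omega
          rw [L_twist hU (hHL A hA) (hHL B hB) hf chi hchie hchin hT.fac psi'
            (below_even hn (even_mul hpsi hchie) hb) hb.2.1]
          refine Finset.prod_ne_zero_iff.2 fun i hi => hne _ ?_
          rw [Finset.mem_Ico] at hi
          have hb2 : (psi' * chi ^ i) ^ (n / q) = (psi * chi ^ (i + 1)) ^ (n / q) := by
            rw [mul_pow, hb1, ← mul_pow, mul_assoc, ← pow_succ']
          have hlast : i ≠ q - 1 → i + 1 ∈ Finset.Ico 2 q := fun h => by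
            rw [Finset.mem_Ico]
            omega
          refine ⟨?_, ?_, fun p hp hpn => ?_⟩
          · intro h4
            by_cases hi1 : i = q - 1
            · apply hb.1
              have h5 : psi' * chi ^ (q - 1) * chi = psi' := by
                rw [mul_assoc, ← pow_succ, Nat.sub_add_cancel (by omega), hchi, mul_one]
              rw [← h5, ← hi1, h4]
            · have h5 := (hc3 (i + 1) (hlast hi1)).2.2
              rw [← hb2, h4] at h5
              exact h5 rfl
          · rw [mul_pow, hb.2.1, one_mul, ← pow_mul, mul_comm, pow_mul, hchin, one_pow]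
          · by_cases hpq : p = q
            · rw [hpq, hb2]
              by_cases hi1 : i = q - 1
              · left
                rw [hi1, Nat.sub_add_cancel (by omega), hchi, mul_one]
              · right
                exact ⟨hq2, hcard, hc3 (i + 1) (hlast hi1)⟩
            · have h4 := hb.2.2 p hp hpn
              rw [pow_part hp hpn hq hqn hpq psi chi hchi] at h4
              rw [pow_part hp hpn hq hqn hpq psi' (chi ^ i) (hchi' i)]
              exact h4
      · obtain ⟨k1, k2, k3⟩ := hc3 t ht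
        refine ⟨ih A hA (psi * chi ^ t) (even_mul hpsi (even_pow hchie t))
          (hmul _ (hchi' t)) ?_ fun psi' hb => hne _ ?_, ?_⟩
        · exact lt_of_lt_of_le (meas_lt hn0 hq hqn hq2 psi (chi ^ t) (hchi' t)
            (card_lt_of_dvd hsq k2 k3)) (Nat.lt_succ_iff.1 hm)
        · exact below_of_below hq hqn hq2 psi (chi ^ t) (hchi' t) hcard k1 k2 k3 psi' hb
        · have h4 := hne _ (below_self hq hqn hq2 psi (chi ^ t) hpsi' (hchi' t) hcard k1 k2 k3)
          have h5 : (A.Om : ℂ) ≠ 0 := by exact_mod_cast h𝒜.om A hA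
          exact div_ne_zero (mul_ne_zero (pow_ne_zero _ (hg _)) h4) h5
    · have hsmall : ∀ q : ℕ, q.Prime → q ∣ n → q ≠ 2 →
          (psi ^ (n / q)).conductor.primeFactors.card ≤ q - 2 := by
        intro q hq hqn hq2
        by_contra h
        exact hbig ⟨q, hq, hqn, hq2, by omega⟩
      by_cases h2 : 2 ∣ n
      · obtain ⟨chi, hchi⟩ : ∃ chi, chi = psi ^ (n / 2) := ⟨_, rfl⟩
        have hchi2 : chi ^ 2 = 1 := by
          rw [hchi, ← pow_mul, Nat.div_mul_cancel h2, hpsi']
        have hchie : chi.Even := by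
          rw [hchi]
          exact even_pow hpsi _
        have hchin : chi ^ n = 1 := by
          obtain ⟨m, hm⟩ := h2
          rw [hm, pow_mul, hchi2, one_pow]
        obtain ⟨B, hB, hT⟩ := h𝒜.twist A hA 2 Nat.prime_two h2 f chi hf hchie hchi2
        refine step hU Nat.prime_two h2 hnN hfN (hHL A hA) (hHL B hB) hf hg (h𝒜.om A hA) chi
          hchie hchi2 hT psi hpsi hpsi' ?_ fun t ht => ?_
        · refine base hU hn0 hN hnN (h𝒜.weil B hB) (hHL B hB) (H B hB) hf (psi * chi)
            (even_mul hpsi hchie) (by rw [mul_pow, hpsi', hchin, one_mul]) fun q hq hqn => ?_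
          by_cases hq2 : q = 2
          · rw [hq2]
            have : NeZero f := ⟨hf.ne_zero⟩
            have h3 : (psi * chi) ^ (n / 2) = 1 := by
              obtain ⟨j, hj⟩ := (odd_half hn h2).add_one
              have h4 : n / 2 + n / 2 * (n / 2) = n * j := by
                have h5 : n / 2 * 2 = n := Nat.div_mul_cancel h2
                calc n / 2 + n / 2 * (n / 2) = n / 2 * (n / 2 + 1) := by ring
                  _ = n / 2 * (j + j) := by rw [hj]
                  _ = n / 2 * 2 * j := by ring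
                  _ = n * j := by rw [h5]
              rw [mul_pow, hchi, ← pow_mul, ← pow_add, h4, pow_mul, hpsi', one_pow]
            rw [h3, DirichletCharacter.conductor_one, Nat.primeFactors_one, Finset.card_empty]
          · rw [pow_part hq hqn Nat.prime_two h2 hq2 psi chi hchi2]
            exact hsmall q hq hqn hq2
        · rw [Finset.mem_Ico] at ht
          omega
      · refine base hU hn0 hN hnN (h𝒜.weil A hA) (hHL A hA) (H A hA) hf psi hpsi hpsi'
          fun q hq hqn => hsmall q hq hqn ?_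
        rintro rfl
        exact h2 hqn

/-- the theorem -/
theorem dpx_all {n : ℕ} (hn : Squarefree n) {U : Set ℂ} (hU : Region U) {𝒜 : Set Datum}
    (h𝒜 : TwistClosed n U 𝒜) (k : IntermediateField ℚ ℂ) (H : ∀ A ∈ 𝒜, Few k n A) :
    ∀ A ∈ 𝒜, ∀ (f : ℕ) (psi : DirichletCharacter ℂ f), Squarefree f → psi.Even → psi ^ n = 1 →
      (∀ psi', Below n psi psi' → A.L f psi' 1 ≠ 0) →
      Equivariant k (normValue A.d A.Om (A.L f)) psi := by
  intro A hA f psi hf hpsi hpsi' hne
  have hN : 0 < n * f := Nat.mul_pos (Nat.pos_of_ne_zero hn.ne_zero)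
    (Nat.pos_of_ne_zero hf.ne_zero)
  refine equivariant_of_eqv hN A psi ?_ (main_ind hn hU h𝒜 k H hf (meas n psi + 1) A hA psi hpsi
    hpsi' (Nat.lt_succ_self _) hne)
  rw [pow_mul, hpsi', one_pow]

end Pool.DPX
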